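import Mathlib
import Pool.Agent.Helper96.Defs
import Pool.Agent.Helper96.Final

/-!
# MP_f73bef_pr: the chromatic and the topological hitting angles are different

For every `d ≥ 300` and `k = d + 1` the hitting angles of `χ > k` and of the existence of a subgraph
whose neighbourhood complex is homotopy equivalent to `S^(k-1)` differ with probability tending
to one, and they are separated by a factor `11/10`. So the answer to Q1 is negative.

Proof. (1) If two antipodal caps of chordal radius `3a/4` contain no vertices, where `a` is at least the
chordal parameter of the graph, then the projections of adjacent vertices to the orthogonal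
complement `ℝ^d` of the axis have negative scalar products. If the neighbourhood complex of a
subgraph were homotopy equivalent to `S^d`, all maps from spheres `S^i`, `i < d`, to it would be
null-homotopic, and one finds by induction on `i ≤ d` maps `f` from `S^i` such that the
supports of `f(u)` and `f(-u)` are completely adjacent; for `i = d` the difference of the
barycentres of the projections of `f(u)` and `f(-u)` is an odd map without zeros from `S^d` to `ℝ^d`.
(2) Given a proper colouring with `d + 1` colours, the theorem of Borsuk and Ulam gives a window of
radius `b` (the chordal parameter) in which each colour class, thickened, has at most the volume of its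
antipode; by the inequality of Brunn and Minkowski these volumes are exponentially small
compared with the window, so at least half of the window is vacant. (3) A window with radius near
`b` and a vacant half is much less likely (for large `d`) than two empty caps of radius `3a/4`,
even for `a = 6b/5`.
-/

open Metric Set Filter Topology MeasureTheory
open scoped ENNReal

namespace Pool.Agent.Results.MP_f73bef_pr.LargeDimension

open Pool.Agent.Helper96.Borsuk

theorem result :
    -- separation of the two hitting angles
    (∀ d : ℕ, 300 ≤ d → ∃ θ : ℕ → ℝ, (∀ᶠ n in atTop, 0 < θ n) ∧ Tendsto θ atTop (𝓝 0) ∧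
      Tendsto (fun n : ℕ => probSeparated d (d + 1) n (11 / 10) (θ n)) atTop (𝓝 1)) ∧
    -- the hitting angles are different with probability tending to one
    (∀ d : ℕ, 300 ≤ d → Tendsto (fun n : ℕ => probEqual d (d + 1) n) atTop (𝓝 0)) ∧
    -- the negation of Q1
    ¬ (∀ d : ℕ, 2 ≤ d → ∀ k : ℕ, 3 ≤ k → k ≤ d + 1 →
      Tendsto (fun n : ℕ => probEqual d k n) atTop (𝓝 1)) := by
  have h2 : ∀ d : ℕ, 300 ≤ d → Tendsto (fun n : ℕ => probEqual d (d + 1) n) atTop (𝓝 0) := by
    intro d hd
    refine tendsto_of_tendsto_of_tendsto_of_le_of_le' tendsto_const_nhds (bad_tendsto hd)
      (Eventually.of_forall fun n => zero_le) ?_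
    filter_upwards [good hd] with n hn
    apply measure_mono
    intro x hx
    by_contra hxb
    obtain ⟨h3, h4⟩ := hn.2 x hxb
    have h5 : hittingAngle (ChromaticAbove (d + 1)) x =
      hittingAngle (HasSphericalSubgraph (d + 1)) x := hx
    rw [← h5] at h4
    have h6 := h4.trans h3
    rw [EReal.coe_le_coe_iff] at h6
    linarith [hn.1]
  refine ⟨?_, h2, ?_⟩
  · intro d hd
    refine ⟨th d, (good hd).mono fun n hn => hn.1, ?_, ?_⟩
    · have h3 := (rn_tendsto (d := d) (by omega)).const_mul (40/33)
      rw [mul_zero] at h3
      exact h3
    · have h3 : Tendsto (fun n => 1 - (law d n) (bad d n)) atTop (𝓝 (1 - 0)) :=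
        ENNReal.Tendsto.sub tendsto_const_nhds (bad_tendsto hd) (Or.inl ENNReal.one_ne_top)
      rw [tsub_zero] at h3
      refine tendsto_of_tendsto_of_tendsto_of_le_of_le' h3 tendsto_const_nhds ?_
        (Eventually.of_forall fun n => ?_)
      · filter_upwards [good hd] with n hn
        rw [tsub_le_iff_right]
        have h4 : (univ : Set (Fin n → S d)) ⊆
            {x | hittingAngle (ChromaticAbove (d + 1)) x ≤ (th d n : EReal) ∧
              ((11 / 10 * th d n : ℝ) : EReal) ≤
                hittingAngle (HasSphericalSubgraph (d + 1)) x} ∪ bad d n := by
          intro x _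
          by_cases hxb : x ∈ bad d n
          · exact Or.inr hxb
          · exact Or.inl (hn.2 x hxb)
        calc (1 : ℝ≥0∞) = (law d n) univ := measure_univ.symm
          _ ≤ (law d n) _ := measure_mono h4
          _ ≤ _ := measure_union_le _ _
      · exact prob_le_one (μ := law d n)
  · intro h
    have h3 := h 300 (by norm_num) 301 (by norm_num) (by norm_num)
    have h4 := h2 300 le_rfl
    exact zero_ne_one (tendsto_nhds_unique h4 h3)

end Pool.Agent.Results.MP_f73bef_pr.LargeDimension
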